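import Pool.Agent.H29.BC2

namespace Pool.Agent.Results.MP_1867c4_co.Bipartite

open Pool.Agent.H29.BC

/-- The ratios `IR_b / Γ_b` of connected bipartite graphs with at least two vertices. -/
def ratios : Set ℝ :=
  {x | ∃ (V : Type) (_ : Fintype V) (_ : DecidableEq V) (G : SimpleGraph V),
    2 ≤ Fintype.card V ∧ G.Connected ∧ G.Colorable 2 ∧ x = (IR G : ℝ) / (Gam G : ℝ)}

lemma lt_two {x : ℝ} (h : x ∈ ratios) : x < 2 := by
  obtain ⟨V, _, _, G, h2, hc, hb, rfl⟩ := h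
  haveI : Nontrivial V := Fintype.one_lt_card_iff_nontrivial.1 h2
  have := IR_lt hc hb
  have h0 : (0 : ℝ) < Gam G := by exact_mod_cast (by omega : 0 < Gam G)
  rw [div_lt_iff₀ h0]
  exact_mod_cast this

theorem result : IsLUB ratios 2 ∧ (2 : ℝ) ∉ ratios := by
  refine ⟨⟨fun x h => (lt_two h).le, fun b hb => ?_⟩, fun h => lt_irrefl _ (lt_two h)⟩
  by_contra hlt
  push Not at hlt
  obtain ⟨k, hk⟩ := exists_nat_gt (60 / (2 - b))
  have hk0 : (0 : ℝ) < k := lt_trans (div_pos (by norm_num) (by linarith)) hk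
  have hk1 : 1 ≤ k := by exact_mod_cast hk0
  have hk1' : (1 : ℝ) ≤ k := by exact_mod_cast hk1
  rw [div_lt_iff₀ (by linarith)] at hk
  have hcard : 2 ≤ Fintype.card (W k (k ^ 2)) := by
    simp only [Fintype.card_prod, Fintype.card_fin, Fintype.card_option]
    nlinarith [Nat.zero_le (Fintype.card Bool * (k ^ 2 + 1))]
  have h1 := hb ⟨W k (k ^ 2), inferInstance, inferInstance, GG k (k ^ 2), hcard, conn _ _, col _ _, rfl⟩
  haveI : Nontrivial (W k (k ^ 2)) := Fintype.one_lt_card_iff_nontrivial.1 hcard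
  have h2 := IR_lt (conn k (k ^ 2)) (col _ _)
  have h0 : (0 : ℝ) < Gam (GG k (k ^ 2)) := by exact_mod_cast (by omega : 0 < Gam (GG k (k ^ 2)))
  have hb0 : 0 ≤ b := le_trans (by positivity) h1
  rw [div_le_iff₀ h0] at h1
  have h3 : (2 * (k ^ 2 + 1) * k : ℝ) ≤ IR (GG k (k ^ 2)) := by exact_mod_cast IR_ge k (k ^ 2)
  have h4 : (Gam (GG k (k ^ 2)) : ℝ) ≤ (k + 1) * (k ^ 2 + 1) + 4 * (k + 1) * (k + 2) := by
    exact_mod_cast Gam_GG k (k ^ 2)
  have h5 : (Gam (GG k (k ^ 2)) : ℝ) ≤ k ^ 3 + 30 * k ^ 2 := by nlinarith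
  have h6 : b * Gam (GG k (k ^ 2)) ≤ b * (k ^ 3 + 30 * k ^ 2) := mul_le_mul_of_nonneg_left h5 hb0
  have h7 : (60 : ℝ) * k ^ 2 < k * (2 - b) * k ^ 2 := mul_lt_mul_of_pos_right hk (by positivity)
  nlinarith [mul_nonneg (sub_pos.2 hlt).le (sq_nonneg (k : ℝ))]

end Pool.Agent.Results.MP_1867c4_co.Bipartite
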